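import Pool.Agent.N186.QC.Smooth

set_option autoImplicit false

open MvPolynomial Pool.Agent.Helper346.Cd Pool.Agent.Y233.Cd

namespace Pool.Agent.N186.QC

/-- The topological group `G` has cohomological dimension one: `H^q(G, M) = 0` for all `q ≥ 2` and
all discrete torsion `G`-modules `M`, and `H^1(G, M) ≠ 0` for some discrete torsion `G`-module. -/
def CdEqOne (G : Type) [Group G] [TopologicalSpace G] : Prop :=
  CdLeOne G ∧ ∃ (M : Type) (_ : AddCommGroup M) (_ : DistribMulAction G M),
    IsDiscreteModule G M ∧ (∀ m : M, IsOfFinAddOrder m) ∧ ¬ HSuccVanishes G M 0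

/-- A nontrivial continuous homomorphism to `ℤ / 2` gives a nonzero class. -/
theorem hone_ne {G : Type} [Group G] [TopologicalSpace G]
    (χ : G → ZMod 2) (hχ : ∀ g h, χ (g * h) = χ g + χ h)
    (hloc : IsLocallyConstant χ) (g₀ : G) (hg₀ : χ g₀ ≠ 0) :
    ∃ (M : Type) (_ : AddCommGroup M) (_ : DistribMulAction G M),
    IsDiscreteModule G M ∧ (∀ m : M, IsOfFinAddOrder m) ∧ ¬ HSuccVanishes G M 0 := by
  let act : DistribMulAction G (ZMod 2) :=
    { smul := fun _ m => m
      one_smul := fun _ => rfl
      mul_smul := fun _ _ _ => rfl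
      smul_zero := fun _ => rfl
      smul_add := fun _ _ _ => rfl }
  have hact : ∀ (g : G) (m : ZMod 2), g • m = m := fun _ _ => rfl
  refine ⟨ZMod 2, inferInstance, act, ?_, ?_, ?_⟩
  · intro m
    have h : {g : G | g • m = m} = Set.univ := by
      ext g; simp [hact]
    rw [h]; exact isOpen_univ
  · intro m
    exact isOfFinAddOrder_of_finite m
  · intro hvan
    have h1 : χ 1 = 0 := by
      have := hχ 1 1
      rw [mul_one] at this
      simpa using this
    obtain ⟨u, hu, hdu⟩ := hvan (fun x => χ (x 1) - χ (x 0)) (by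
      refine ⟨?_, ?_⟩
      · have e1 : IsLocallyConstant (fun x : Fin 2 → G => χ (x 1)) :=
          hloc.comp_continuous (continuous_apply (1 : Fin 2))
        have e0 : IsLocallyConstant (fun x : Fin 2 → G => χ (x 0)) :=
          hloc.comp_continuous (continuous_apply (0 : Fin 2))
        exact e1.sub e0
      · intro g x
        rw [hact]
        simp only [hχ]
        ring) (by
      funext x
      simp only [Pool.Agent.Helper346.Cd.diff, Pi.zero_apply]
      rw [Fin.sum_univ_three]
      simp [Fin.succAbove])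
    have hconst : ∀ x y : Fin 1 → G, u x = u y := by
      intro x y
      have := hu.2 (y 0 * (x 0)⁻¹) x
      rw [hact] at this
      rw [← this]
      congr 1
      funext i
      fin_cases i
      simp
    have h2 := congrFun hdu ![1, g₀]
    simp only [Pool.Agent.Helper346.Cd.diff] at h2
    rw [Fin.sum_univ_two] at h2
    simp only [Fin.val_zero, pow_zero, one_smul, Fin.val_one, pow_one, neg_smul] at h2
    rw [hconst _ (fun i => ![1, g₀] (Fin.succAbove 1 i)), add_neg_cancel] at h2
    simp only [Matrix.cons_val_one, Matrix.cons_val_zero, h1, sub_zero] at h2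
    exact hg₀ h2.symm

/-- A separable quadratic polynomial without root gives a nonzero homomorphism to `ℤ / 2`. -/
theorem exists_char {k : Type} [Field k] (a b c : k) (ha : a ≠ 0) (hc : c ≠ 0)
    [CharP k 2] (hno : ∀ t : k, a * t ^ 2 + c * t + b ≠ 0) :
    ∃ (M : Type) (_ : AddCommGroup M) (_ : DistribMulAction Gal(SeparableClosure k/k) M),
    IsDiscreteModule Gal(SeparableClosure k/k) M ∧ (∀ m : M, IsOfFinAddOrder m) ∧
      ¬ HSuccVanishes Gal(SeparableClosure k/k) M 0 := by
  classical
  let K := SeparableClosure k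
  have hK2 : CharP K 2 := charP_of_injective_algebraMap (algebraMap k K).injective 2
  have h2 : (2 : K) = 0 := by exact_mod_cast CharP.cast_eq_zero K 2
  have h2k : (2 : k) = 0 := by exact_mod_cast CharP.cast_eq_zero k 2
  let P : Polynomial k := Polynomial.C a * Polynomial.X ^ 2 + Polynomial.C c * Polynomial.X +
    Polynomial.C b
  have hdeg : P.natDegree = 2 := Polynomial.natDegree_quadratic ha
  have hP0 : P.degree ≠ 0 := by
    intro h
    have := Polynomial.natDegree_eq_of_degree_eq_some h
    rw [hdeg] at this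
    exact absurd this (by norm_num)
  have hder : Polynomial.derivative P = Polynomial.C c := by
    simp only [P, Polynomial.derivative_add, Polynomial.derivative_mul, Polynomial.derivative_C,
      Polynomial.derivative_X_pow, Polynomial.derivative_X, zero_mul, zero_add, mul_one, add_zero]
    have h3 : ((2 : ℕ) : k) = 0 := CharP.cast_eq_zero k 2
    simp [h2k]
  have hsep : P.Separable := by
    rw [Polynomial.separable_def, hder]
    exact ⟨0, Polynomial.C c⁻¹, by rw [zero_mul, zero_add, ← Polynomial.C_mul,
      inv_mul_cancel₀ hc, Polynomial.C_1]⟩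
  obtain ⟨θ, hθ⟩ := IsSepClosed.exists_aeval_eq_zero (K := K) P hP0 hsep
  have hroot : ∀ z : K, Polynomial.aeval z P = 0 ↔
      algebraMap k K a * z ^ 2 + algebraMap k K c * z + algebraMap k K b = 0 := by
    intro z; simp [P]
  have ha' : algebraMap k K a ≠ 0 := (map_ne_zero _).2 ha
  have hc' : algebraMap k K c ≠ 0 := (map_ne_zero _).2 hc
  set δ : K := algebraMap k K c / algebraMap k K a with hδ
  have hδ0 : δ ≠ 0 := div_ne_zero hc' ha'
  have hδfix : ∀ σ : Gal(K/k), σ δ = δ := by
    intro σ; rw [hδ, map_div₀, AlgEquiv.commutes, AlgEquiv.commutes]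
  have htwo : ∀ σ : Gal(K/k), σ θ = θ ∨ σ θ = θ + δ := by
    intro σ
    have h1 := (hroot θ).1 hθ
    have h3 : algebraMap k K a * (σ θ) ^ 2 + algebraMap k K c * σ θ + algebraMap k K b = 0 := by
      have := congrArg σ h1
      simpa using this
    have h4 : (σ θ - θ) * (algebraMap k K a * (σ θ + θ) + algebraMap k K c) = 0 := by
      linear_combination h3 - h1
    rcases mul_eq_zero.1 h4 with h5 | h5
    · left; exact sub_eq_zero.1 h5
    · right
      have h6 : algebraMap k K a * δ = algebraMap k K c := mul_div_cancel₀ _ ha'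
      have h7 : algebraMap k K a * (σ θ - (θ + δ)) = 0 := by
        linear_combination h5 - h6 - (algebraMap k K a * θ + algebraMap k K c) * h2
      rcases mul_eq_zero.1 h7 with h8 | h8
      · exact absurd h8 ha'
      · exact sub_eq_zero.1 h8
  let χ : Gal(K/k) → ZMod 2 := fun σ => if σ θ = θ then 0 else 1
  have hχ0 : ∀ σ : Gal(K/k), χ σ = 0 ↔ σ θ = θ := by
    intro σ
    by_cases h : σ θ = θ
    · simp [χ, h]
    · simp [χ, h]
  have hmul : ∀ σ τ : Gal(K/k), χ (σ * τ) = χ σ + χ τ := by
    intro σ τ
    have hst : (σ * τ) θ = σ (τ θ) := rfl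
    have hδθ : θ + δ ≠ θ := by simpa using hδ0
    rcases htwo σ with h1 | h1 <;> rcases htwo τ with h3 | h3
    · simp [χ, hst, h1, h3]
    · simp [χ, hst, h1, h3, map_add, hδfix, hδ0]
    · simp [χ, hst, h1, h3, hδ0]
    · have h5 : θ + δ + δ = θ := by linear_combination δ * h2
      simp only [χ, hst, h3, map_add, h1, hδfix, h5, if_true, hδθ, if_false]
      decide
  have hloc : IsLocallyConstant χ := by
    rw [IsLocallyConstant.iff_exists_open]
    intro σ
    refine ⟨{τ : Gal(K/k) | τ θ = σ θ}, ?_, rfl, ?_⟩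
    · have hfin : FiniteDimensional k (IntermediateField.adjoin k {θ}) :=
        IntermediateField.adjoin.finiteDimensional (Algebra.IsIntegral.isIntegral θ)
      have hop := IntermediateField.fixingSubgroup_isOpen (IntermediateField.adjoin k {θ})
      have heq : {τ : Gal(K/k) | τ θ = σ θ} =
          (fun τ => σ⁻¹ * τ) ⁻¹' ((IntermediateField.adjoin k {θ}).fixingSubgroup : Set Gal(K/k)) := by
        ext τ
        simp only [Set.mem_ofPred_eq, Set.mem_preimage, SetLike.mem_coe,
          IntermediateField.mem_fixingSubgroup_iff]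
        constructor
        · intro h x hx
          have h6 : (IntermediateField.adjoin k {θ}) ≤
              IntermediateField.fixedField (Subgroup.zpowers (σ⁻¹ * τ)) := by
            rw [IntermediateField.adjoin_simple_le_iff]
            rintro ⟨g, hg⟩
            obtain ⟨n, rfl⟩ := Subgroup.mem_zpowers_iff.1 hg
            have h7 : (σ⁻¹ * τ) • θ = θ := by
              show (σ⁻¹ * τ) θ = θ
              have : (σ⁻¹ * τ) θ = σ⁻¹ (τ θ) := rfl
              rw [this, h]
              exact σ.symm_apply_apply θ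
            exact MulAction.mem_stabilizer_iff.1 (Subgroup.zpow_mem (MulAction.stabilizer _ θ)
              (MulAction.mem_stabilizer_iff.2 h7) n)
          exact h6 hx ⟨_, Subgroup.mem_zpowers _⟩
        · intro h
          have h7 := h θ (IntermediateField.mem_adjoin_simple_self k θ)
          have h8 : σ⁻¹ (τ θ) = θ := h7
          have h9 := congrArg σ h8
          have h10 : σ (σ⁻¹ (τ θ)) = τ θ := σ.apply_symm_apply (τ θ)
          rw [h10] at h9
          exact h9
      rw [heq]
      exact hop.preimage (continuous_const.mul continuous_id)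
    · intro τ hτ
      have hτ' : τ θ = σ θ := hτ
      simp only [χ, hτ']
  -- some element moves θ
  obtain ⟨σ, hσ⟩ : ∃ σ : Gal(K/k), σ θ ≠ θ := by
    by_contra hcon
    push Not at hcon
    have h6 : θ ∈ (⊥ : IntermediateField k K) :=
      (InfiniteGalois.mem_bot_iff_fixed (k := k) (K := K) θ).2 hcon
    obtain ⟨t, ht⟩ := IntermediateField.mem_bot.1 h6
    apply hno t
    apply (algebraMap k K).injective
    have h1 := (hroot θ).1 hθ
    rw [← ht] at h1
    rw [map_zero]
    simpa using h1
  exact hone_ne χ hmul hloc σ (fun h => hσ ((hχ0 σ).1 h))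

/-- The field: a maximal extension of odd degree of `k₀(a₀, a₁, …)(c)`. -/
theorem main (k₀ : Type) [Field k₀] [CharP k₀ 2] :
    ∃ (k : Type) (_ : Field k) (_ : Algebra k₀ k), CdEqOne Gal(SeparableClosure k/k) ∧
    ∃ f g : MvPolynomial (Fin 6) k, f.IsHomogeneous 2 ∧ g.IsHomogeneous 2 ∧
      (∀ x : Fin 6 → AlgebraicClosure k, x ≠ 0 → aeval x f = 0 → aeval x g = 0 →
        LinearIndependent (AlgebraicClosure k)
          ![fun i => aeval x (pderiv i f), fun i => aeval x (pderiv i g)]) ∧
      ∀ x : Fin 6 → k, x ≠ 0 → eval x f ≠ 0 := by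
  have hfact : Fact (Nat.Prime 2) := ⟨Nat.prime_two⟩
  let κ := FractionRing (MvPolynomial ℕ k₀)
  let K0 := FractionRing (Polynomial κ)
  have : CharP κ 2 :=
    charP_of_injective_algebraMap (IsFractionRing.injective (MvPolynomial ℕ k₀) κ) 2
  have : CharP K0 2 :=
    charP_of_injective_algebraMap (IsFractionRing.injective (Polynomial κ) K0) 2
  obtain ⟨E, hE1, hE2⟩ := exists_maximal_prime_to 2 Nat.prime_two K0 (SeparableClosure K0)
  have : CharP E 2 := charP_of_injective_algebraMap (algebraMap K0 E).injective 2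
  let toE : k₀ →+* E := (algebraMap K0 E).comp ((algebraMap (Polynomial κ) K0).comp
    (Polynomial.C.comp ((algebraMap (MvPolynomial ℕ k₀) κ).comp MvPolynomial.C)))
  let a : Fin 6 → κ := fun i => algebraMap (MvPolynomial ℕ k₀) κ (X (i : ℕ))
  let A : Fin 6 → E :=
    fun i => algebraMap K0 E (algebraMap (Polynomial κ) K0 (Polynomial.C (a i)))
  let c : E := algebraMap K0 E (algebraMap (Polynomial κ) K0 Polynomial.X)
  have hc : c ≠ 0 := by
    show algebraMap K0 E (algebraMap (Polynomial κ) K0 Polynomial.X) ≠ 0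
    rw [ne_eq, map_eq_zero_iff _ (algebraMap K0 E).injective,
      map_eq_zero_iff _ (IsFractionRing.injective (Polynomial κ) K0)]
    exact Polynomial.X_ne_zero
  have hA : ∀ i, A i ≠ 0 := by
    intro i
    have h1 : a i ≠ 0 := by
      show algebraMap (MvPolynomial ℕ k₀) κ (X ((i : Fin 6) : ℕ)) ≠ 0
      rw [ne_eq, map_eq_zero_iff _ (IsFractionRing.injective (MvPolynomial ℕ k₀) κ)]
      exact MvPolynomial.X_ne_zero _
    show algebraMap K0 E (algebraMap (Polynomial κ) K0 (Polynomial.C (a i))) ≠ 0
    rw [ne_eq, map_eq_zero_iff _ (algebraMap K0 E).injective,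
      map_eq_zero_iff _ (IsFractionRing.injective (Polynomial κ) K0), Polynomial.C_eq_zero]
    exact h1
  have hani : ∀ x : Fin 6 → E, x ≠ 0 → eval x (fform A c) ≠ 0 := by
    intro x hx
    rw [eval_fform]
    exact aniso E hE1 a (fun y hy => indep_pow 2 k₀ 5 y hy) x hx
  refine ⟨E, inferInstance, toE.toAlgebra, ⟨cdLeOne_of hE2, ?_⟩, fform A c, gform E,
    fform_homogeneous A c, gform_homogeneous E,
    fun x hx hf hg => smooth A c hA hc x hx hf hg, hani⟩
  refine exists_char (A 0) (A 1) c (hA 0) hc fun t ht => ?_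
  refine hani ![t, 1, 0, 0, 0, 0] (fun h => ?_) ?_
  · have := congrFun h 1
    simp at this
  · rw [eval_fform, Fin.sum_univ_six]
    simp only [Matrix.cons_val_zero, Matrix.cons_val_one, Matrix.cons_val]
    linear_combination ht

end Pool.Agent.N186.QC

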