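import Pool.Agent.Y233.Cd.F

set_option autoImplicit false

open MvPolynomial Pool.Agent.Helper346.Cd Pool.Agent.Y233.Cd

namespace Pool.Agent.N186.QC

/-- The first quadratic form. -/
noncomputable def fform {k : Type*} [Field k] (a : Fin 6 → k) (c : k) : MvPolynomial (Fin 6) k :=
  ∑ i, C (a i) * X i ^ 2 + C c * (X 0 * X 1 + X 2 * X 3)

/-- The second quadratic form. -/
noncomputable def gform (k : Type*) [Field k] : MvPolynomial (Fin 6) k :=
  X 0 ^ 2 + X 2 * X 3 + X 4 * X 5

theorem aeval_fform {k A : Type*} [Field k] [CommRing A] [Algebra k A] (a : Fin 6 → k) (c : k)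
    (x : Fin 6 → A) : aeval x (fform a c) = ∑ i, algebraMap k A (a i) * x i ^ 2 +
      algebraMap k A c * (x 0 * x 1 + x 2 * x 3) := by
  simp [fform]

theorem eval_fform {k : Type*} [Field k] (a : Fin 6 → k) (c : k)
    (x : Fin 6 → k) : eval x (fform a c) = ∑ i, a i * x i ^ 2 +
      c * (x 0 * x 1 + x 2 * x 3) := by
  simp [fform]

theorem aeval_gform {k A : Type*} [Field k] [CommRing A] [Algebra k A]
    (x : Fin 6 → A) : aeval x (gform k) = x 0 ^ 2 + x 2 * x 3 + x 4 * x 5 := by
  simp [gform]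

theorem fform_homogeneous {k : Type*} [Field k] (a : Fin 6 → k) (c : k) :
    (fform a c).IsHomogeneous 2 := by
  unfold fform
  refine IsHomogeneous.add ?_ ?_
  · refine IsHomogeneous.sum _ _ _ fun i _ => ?_
    have h := (isHomogeneous_C (Fin 6) (a i)).mul ((isHomogeneous_X k i).pow 2)
    simpa using h
  · have h0 : ∀ i j : Fin 6, (X i * X j : MvPolynomial (Fin 6) k).IsHomogeneous 2 := fun i j => by
      have h := (isHomogeneous_X k i).mul (isHomogeneous_X k j)
      simpa using h
    have h := (isHomogeneous_C (Fin 6) c).mul ((h0 0 1).add (h0 2 3))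
    simpa using h

theorem gform_homogeneous (k : Type*) [Field k] : (gform k).IsHomogeneous 2 := by
  have h0 : ∀ i j : Fin 6, (X i * X j : MvPolynomial (Fin 6) k).IsHomogeneous 2 := fun i j => by
    have h := (isHomogeneous_X k i).mul (isHomogeneous_X k j)
    simpa using h
  have h1 : (X 0 ^ 2 : MvPolynomial (Fin 6) k).IsHomogeneous 2 := by
    have h := (isHomogeneous_X k (0 : Fin 6)).pow 2
    simpa using h
  exact (h1.add (h0 2 3)).add (h0 4 5)

theorem aniso_place {κ E l : Type*} [Field κ] [Field E] [Field l]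
    [Algebra κ l] (a : Fin 6 → κ)
    (ha : ∀ z : Fin 6 → l, ∑ i, algebraMap κ l (a i) * z i ^ 2 = 0 → z = 0)
    (ι : κ →+* E) (c : E) (O : ValuationSubring E) (r : O →+* l)
    (hι : ∀ a : κ, ∃ h : ι a ∈ O, r ⟨ι a, h⟩ = algebraMap κ l a)
    (hc : ∃ h : c ∈ O, r ⟨c, h⟩ = 0) (x : Fin 6 → E) (hx : x ≠ 0) :
    ∑ i, ι (a i) * x i ^ 2 + c * (x 0 * x 1 + x 2 * x 3) ≠ 0 := by
  intro hsum
  obtain ⟨i0, -, hmax⟩ := Finset.exists_max_image (Finset.univ : Finset (Fin 6))
    (fun i => O.valuation (x i)) Finset.univ_nonempty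
  have hx0 : x i0 ≠ 0 := by
    intro h0
    apply hx
    funext i
    have h1 := hmax i (Finset.mem_univ i)
    rw [h0, map_zero, le_zero_iff, map_eq_zero] at h1
    exact h1
  have hy : ∀ i, x i / x i0 ∈ O := by
    intro i
    rw [← O.valuation_le_one_iff, map_div₀]
    have hv : O.valuation (x i0) ≠ 0 := (map_ne_zero _).2 hx0
    exact (div_le_one₀ (zero_lt_iff.2 hv)).2 (hmax i (Finset.mem_univ i))
  choose hιO hιr using hι
  obtain ⟨hcO, hcr⟩ := hc
  have hO : ∑ i, (⟨ι (a i), hιO (a i)⟩ : O) * (⟨x i / x i0, hy i⟩ : O) ^ 2 +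
      (⟨c, hcO⟩ : O) * ((⟨x 0 / x i0, hy 0⟩ : O) * (⟨x 1 / x i0, hy 1⟩ : O) +
        (⟨x 2 / x i0, hy 2⟩ : O) * (⟨x 3 / x i0, hy 3⟩ : O)) = 0 := by
    apply Subtype.ext
    push_cast
    have h1 : ∑ i, ι (a i) * (x i / x i0) ^ 2 = (∑ i, ι (a i) * x i ^ 2) / x i0 ^ 2 := by
      rw [Finset.sum_div]
      apply Finset.sum_congr rfl
      intro i _
      rw [div_pow, mul_div_assoc]
    have h2 : x 0 / x i0 * (x 1 / x i0) + x 2 / x i0 * (x 3 / x i0) =
        (x 0 * x 1 + x 2 * x 3) / x i0 ^ 2 := by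
      field_simp
    rw [h1, h2, mul_div_assoc', ← add_div, hsum, zero_div]
  have hr0 := congrArg r hO
  simp only [map_add, map_sum, map_mul, map_pow, map_zero, hcr, zero_mul, add_zero, hιr] at hr0
  have hz := ha (fun i => r ⟨x i / x i0, hy i⟩) hr0
  have h1 := congrFun hz i0
  have h2 : (⟨x i0 / x i0, hy i0⟩ : O) = 1 := by
    apply Subtype.ext
    exact div_self hx0
  simp only [h2, map_one, Pi.zero_apply] at h1
  exact one_ne_zero h1

/-- The first form is anisotropic over every field `E` all of whose finite subextensions have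
degree prime to two. -/
theorem aniso {κ K Ω : Type} [Field κ] [CharP κ 2] [Field K] [Field Ω]
    [Algebra (Polynomial κ) K] [IsFractionRing (Polynomial κ) K] [Algebra K Ω]
    [Algebra.IsSeparable K Ω] (E : IntermediateField K Ω)
    (hE : ∀ T : IntermediateField K Ω, T ≤ E → FiniteDimensional K T → ¬ 2 ∣ Module.finrank K T)
    (a : Fin 6 → κ) (ha : ∀ y : Fin 6 → κ, ∑ i, a i * y i ^ 2 = 0 → y = 0)
    (x : Fin 6 → E) (hx : x ≠ 0) :
    ∑ i, algebraMap K E (algebraMap (Polynomial κ) K (Polynomial.C (a i))) * x i ^ 2 +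
      algebraMap K E (algebraMap (Polynomial κ) K Polynomial.X) * (x 0 * x 1 + x 2 * x 3) ≠ 0 := by
  intro hx0
  have : Fact (Nat.Prime 2) := ⟨Nat.prime_two⟩
  let T : IntermediateField K Ω :=
    IntermediateField.adjoin K (Set.range fun i => ((x i : E) : Ω))
  have hTE : T ≤ E := by
    refine IntermediateField.adjoin_le_iff.2 ?_
    rintro _ ⟨i, rfl⟩
    exact (x i).2
  have : FiniteDimensional K T := by
    have : Finite (Set.range fun i => ((x i : E) : Ω)) := Set.finite_range _
    refine IntermediateField.finiteDimensional_adjoin ?_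
    intro y _
    exact Algebra.IsIntegral.isIntegral y
  have h3 := hE T hTE inferInstance
  have : Algebra.IsSeparable K T := Algebra.isSeparable_tower_bot_of_isSeparable K T Ω
  let ι : κ →+* T := (algebraMap K T).comp ((algebraMap (Polynomial κ) K).comp Polynomial.C)
  let c : T := algebraMap K T (algebraMap (Polynomial κ) K Polynomial.X)
  obtain ⟨O, l, _, _, r, ⟨hlfd, hldeg⟩, -, hι, hc⟩ := exists_good_place_of (κ := κ) (E := T) K
    2 h3 ι c (fun a => rfl) rfl
  let y : Fin 6 → T := fun i =>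
    ⟨((x i : E) : Ω), IntermediateField.subset_adjoin _ _ ⟨i, rfl⟩⟩
  have hy : y ≠ 0 := by
    intro h
    apply hx
    funext i
    have := congrArg (fun t : T => (t : Ω)) (congrFun h i)
    exact Subtype.ext this
  have hres := aniso_res (p := 2) (κ := κ) (l := l) a ha 1 0 2 (by norm_num) (by norm_num)
    (by norm_num) (by simpa using hldeg)
  simp only [pow_zero, pow_one] at hres
  refine aniso_place a hres ι c O r hι hc y hy ?_
  apply Subtype.ext
  have := congrArg (fun t : E => (t : Ω)) hx0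
  simpa [y, ι, c] using this

end Pool.Agent.N186.QC
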