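import Pool.Agent.N186.QC.Main

set_option autoImplicit false

open MvPolynomial

namespace Pool.Agent.N186.QC

theorem grad_f {k A : Type*} [Field k] [CharP k 2] [CommRing A] [Algebra k A] (a : Fin 6 → k)
    (c : k) (x : Fin 6 → A) :
    (fun i => aeval x (pderiv i (fform a c))) =
      ![algebraMap k A c * x 1, algebraMap k A c * x 0, algebraMap k A c * x 3,
        algebraMap k A c * x 2, 0, 0] := by
  have h2 : (2 : MvPolynomial (Fin 6) k) = 0 := by
    have h := CharP.cast_eq_zero (MvPolynomial (Fin 6) k) 2
    exact_mod_cast h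
  funext i
  unfold fform
  simp only [map_add, map_sum, Derivation.leibniz, Derivation.leibniz_pow, pderiv_C,
    smul_eq_mul, nsmul_eq_mul, Nat.cast_ofNat, h2, zero_mul, mul_zero, Finset.sum_const_zero,
    zero_add, add_zero]
  fin_cases i <;> simp [pderiv_X]

theorem grad_g {k A : Type*} [Field k] [CharP k 2] [CommRing A] [Algebra k A]
    (x : Fin 6 → A) :
    (fun i => aeval x (pderiv i (gform k))) = ![0, 0, x 3, x 2, x 5, x 4] := by
  have h2 : (2 : MvPolynomial (Fin 6) k) = 0 := by
    have h := CharP.cast_eq_zero (MvPolynomial (Fin 6) k) 2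
    exact_mod_cast h
  funext i
  unfold gform
  simp only [map_add, Derivation.leibniz, Derivation.leibniz_pow,
    smul_eq_mul, nsmul_eq_mul, Nat.cast_ofNat, h2, zero_mul, zero_add]
  fin_cases i <;> simp [pderiv_X]

theorem smooth {k A : Type*} [Field k] [CharP k 2] [Field A] [Algebra k A] (a : Fin 6 → k)
    (c : k) (ha : ∀ i, a i ≠ 0) (hc : c ≠ 0) (x : Fin 6 → A) (hx : x ≠ 0)
    (hf : aeval x (fform a c) = 0) (hg : aeval x (gform k) = 0) :
    LinearIndependent A ![fun i => aeval x (pderiv i (fform a c)),
      fun i => aeval x (pderiv i (gform k))] := by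
  have hinj := (algebraMap k A).injective
  have ha' : ∀ i, algebraMap k A (a i) ≠ 0 := fun i h => ha i (hinj (by rw [h, map_zero]))
  have hc' : algebraMap k A c ≠ 0 := fun h => hc (hinj (by rw [h, map_zero]))
  rw [aeval_fform, Fin.sum_univ_six] at hf
  rw [aeval_gform] at hg
  rw [grad_f, grad_g, LinearIndependent.pair_iff]
  intro s t hst
  have e0 := congrFun hst 0
  have e1 := congrFun hst 1
  have e2 := congrFun hst 2
  have e3 := congrFun hst 3
  have e4 := congrFun hst 4
  have e5 := congrFun hst 5
  simp at e0 e1 e2 e3 e4 e5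
  by_contra hcon
  apply hx
  set C := algebraMap k A c with hC
  -- e2 : s * (C * x 3) + t * x 3 = 0 etc
  by_cases hs : s = 0
  · subst hs
    have ht : t ≠ 0 := fun h => hcon ⟨rfl, h⟩
    simp [ht] at e2 e3 e4 e5
    rw [e2, e3, e4, e5] at hf hg
    have h0 : x 0 = 0 := by simpa using hg
    have h1 : x 1 = 0 := by
      rw [h0] at hf
      simpa [ha'] using hf
    funext i; fin_cases i <;> simp [h0, h1, e2, e3, e4, e5]
  · have h1 : x 1 = 0 := by
      rcases e0 with h | h
      · exact absurd h hs
      · rcases h with h | h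
        · exact absurd h hc
        · exact h
    have h0 : x 0 = 0 := by
      rcases e1 with h | h
      · exact absurd h hs
      · rcases h with h | h
        · exact absurd h hc
        · exact h
    rw [h0, h1] at hf
    rw [h0] at hg
    by_cases ht : t = 0
    · subst ht
      simp [hs, hc'] at e2 e3
      rw [e2, e3] at hf hg
      simp at hg hf
      rcases hg with h | h
      · rw [h] at hf
        have h5 : x 5 = 0 := by simpa [ha'] using hf
        funext i; fin_cases i <;> simp [h0, h1, e2, e3, h, h5]
      · rw [h] at hf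
        have h4 : x 4 = 0 := by simpa [ha'] using hf
        funext i; fin_cases i <;> simp [h0, h1, e2, e3, h, h4]
    · simp [ht] at e4 e5
      rw [e4, e5] at hf hg
      simp at hg hf
      rcases hg with h | h
      · rw [h] at hf
        have h5 : x 3 = 0 := by simpa [ha'] using hf
        funext i; fin_cases i <;> simp [h0, h1, e4, e5, h, h5]
      · rw [h] at hf
        have h4 : x 2 = 0 := by simpa [ha'] using hf
        funext i; fin_cases i <;> simp [h0, h1, e4, e5, h, h4]

end Pool.Agent.N186.QC
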